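import Pool.Agent.Helper14.GS.StD
import Pool.Agent.Helper10.EP.A2

set_option autoImplicit false

/-! Project GS (MP_627c93_nt), module D8. -/

namespace Pool.Agent.Helper74.GS

open Pool.Agent.Helper14.GS Pool.Agent.Helper10.EP Polynomial Finset

/-- The degree attached to a choice. -/
def dgD (T K : ℕ) : Option (Fin T × Fin (K + T)) → ℕ
  | none => K
  | some am => (am.2 : ℕ) - T

/-- The scalar attached to a choice. -/
def kkD (T K : ℕ) (κ : Fin T → ℕ → ℂ → ℂ) (x : ℂ) : Option (Fin T × Fin (K + T)) → ℂ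
  | none => 1
  | some am => κ am.1 am.2 x

/-- The row attached to a choice. -/
def rowD {ι : Type} (T K : ℕ) (w : Fin T → ℕ → ι → ℂ) (r : ι → ℂ → ℂ) (x : ℂ) :
    Option (Fin T × Fin (K + T)) → ι → ℂ
  | none => fun c => r c x
  | some am => w am.1 am.2

theorem D8 (h6 : StD6) (h7 : StD7) : StD8 := by
  classical
  intro ι _ _ T K f v γ e hf hcard
  obtain ⟨w, hw⟩ := h6 ι T K f hf
  choose κ r hκ hr hrel using fun ρ => hw (v ρ) (γ ρ) (e ρ)
  obtain ⟨m, hm⟩ : ∃ m, m = T * (K * (K - 1) / 2) := ⟨_, rfl⟩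
  rw [← hm]
  let D := (Matrix.detRowAlternating (n := ι) (R := ℂ)).toMultilinearMap
  have hD : ∀ v : ι → ι → ℂ, D v = (Matrix.of v).det := fun v => rfl
  have hrow : ∀ (x : ℂ) (ρ : ι), (fun c : ι =>
      (∑ a, ∑ j : Fin T, γ ρ a j * iteratedDeriv (j : ℕ) (f a c) (x * v ρ)) + x ^ K * e ρ c)
      = ∑ o : Option (Fin T × Fin (K + T)), (x ^ dgD T K o * kkD T K (κ ρ) x o) •
          rowD T K w (r ρ) x o := by
    intro x ρ
    funext c
    rw [hrel ρ x c, Fintype.sum_option, Pi.add_apply, Finset.sum_apply, Fintype.sum_prod_type]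
    simp only [Pi.smul_apply, smul_eq_mul, dgD, kkD, rowD, mul_one]
    rw [add_comm]
    congr 1
    refine Finset.sum_congr rfl fun a _ => ?_
    rw [Finset.sum_range]
  have hdet : ∀ x : ℂ, (Matrix.of fun ρ c : ι =>
      (∑ a, ∑ j : Fin T, γ ρ a j * iteratedDeriv (j : ℕ) (f a c) (x * v ρ)) + x ^ K * e ρ c).det
      = ∑ φ : ι → Option (Fin T × Fin (K + T)),
          (∏ ρ, (x ^ dgD T K (φ ρ) * kkD T K (κ ρ) x (φ ρ))) *
          (Matrix.of fun ρ => rowD T K w (r ρ) x (φ ρ)).det := by
    intro x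
    have h1 : (Matrix.of fun ρ c : ι =>
        (∑ a, ∑ j : Fin T, γ ρ a j * iteratedDeriv (j : ℕ) (f a c) (x * v ρ)) + x ^ K * e ρ c)
        = Matrix.of fun ρ => ∑ o : Option (Fin T × Fin (K + T)),
          (x ^ dgD T K o * kkD T K (κ ρ) x o) • rowD T K w (r ρ) x o := by
      ext ρ c
      rw [Matrix.of_apply, Matrix.of_apply, ← hrow x ρ]
    rw [h1, ← hD, MultilinearMap.map_sum]
    refine Finset.sum_congr rfl fun φ _ => ?_
    rw [MultilinearMap.map_smul_univ, hD, smul_eq_mul]
  refine ⟨fun x => ∑ φ : ι → Option (Fin T × Fin (K + T)),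
    if m ≤ ∑ ρ, dgD T K (φ ρ) then
      x ^ (∑ ρ, dgD T K (φ ρ) - m) * (∏ ρ, kkD T K (κ ρ) x (φ ρ)) *
        (Matrix.of fun ρ => rowD T K w (r ρ) x (φ ρ)).det
    else 0, ?_, fun x => ?_⟩
  · refine Differentiable.fun_sum fun φ _ => ?_
    split_ifs with h
    · refine Differentiable.fun_mul (Differentiable.fun_mul (by fun_prop) ?_) ?_
      · refine Differentiable.fun_finsetProd fun ρ _ => ?_
        cases φ ρ with
        | none => exact differentiable_const _
        | some am => exact hκ ρ am.1 am.2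
      · refine differentiable_det _ fun ρ c => ?_
        show Differentiable ℂ fun x => rowD T K w (r ρ) x (φ ρ) c
        cases φ ρ with
        | none => exact hr ρ c
        | some am => exact differentiable_const _
    · exact differentiable_const _
  · rw [hdet x, Finset.mul_sum]
    refine Finset.sum_congr rfl fun φ _ => ?_
    split_ifs with h
    · rw [Finset.prod_mul_distrib, Finset.prod_pow_eq_pow_sum]
      have h2 : x ^ (∑ ρ, dgD T K (φ ρ)) = x ^ m * x ^ (∑ ρ, dgD T K (φ ρ) - m) := by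
        rw [← pow_add, Nat.add_sub_cancel' h]
      rw [h2]
      ring
    · rw [mul_zero]
      have hn : ¬ ∀ ρ ρ' : ι, φ ρ = φ ρ' → φ ρ ≠ none → ρ = ρ' := by
        intro hinj
        apply h
        have h3 := h7 ι T K φ hinj hcard
        rw [← hm] at h3
        refine h3.trans (le_of_eq (Finset.sum_congr rfl fun ρ _ => ?_))
        cases φ ρ <;> rfl
      push Not at hn
      obtain ⟨ρ, ρ', hab, hne, hρ⟩ := hn
      have hz : (Matrix.of fun ρ => rowD T K w (r ρ) x (φ ρ)).det = 0 := by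
        refine Matrix.det_zero_of_row_eq hρ ?_
        funext c
        show rowD T K w (r ρ) x (φ ρ) c = rowD T K w (r ρ') x (φ ρ') c
        rw [← hab]
        cases hφ : φ ρ with
        | none => exact absurd hφ hne
        | some am => rfl
      rw [hz, mul_zero]

end Pool.Agent.Helper74.GS
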